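import Pool.Agent.V11110.WHT

/-!
# MP_6efe58_an: heat smoothing into CF for groups without property (T)

For every countably infinite group without property (T) and every normalised circle valued
2-cocycle there are a negative definite `d`, an element `x₀` of the reduced twisted group
C*-algebra outside `CF`, and `t > 0`, such that the heat flow moves `x₀` into `CF`.

Proof. Let `A` be a product of `n` factors `1 + u Λ(g)` with rapidly chosen `g`; a fourth moment
argument makes `‖A‖²` at least `(1 + n/8) 2^n`, while the Rudin-Shapiro choice of signs of the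
same coefficients has norm at most `2^{(n+1)/2}`.  So unit vectors of the algebra have partial
Fourier sums of arbitrarily large norm.  Such blocks are translated by `h_k` with `d` huge on the
translated supports, and summed.
-/

open scoped InnerProductSpace ComplexConjugate ENNReal
open Filter Topology

noncomputable section

namespace Pool.Agent.Results.MP_6efe58_an.WeakHeat

open Pool.Agent.V11110.WH

theorem result {G : Type*} [Group G] [Countable G] [Infinite G] (hG : ¬ PropertyT G)
    (σ : Cocycle G) :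
    ∃ d : G → ℝ, IsND d ∧ ∃ (x₀ : Op G) (t : ℝ), 0 < t ∧
      x₀ ∈ CrS σ ∧ x₀ ∈ vNA σ ∧ x₀ ∉ CFS σ ∧
      (∀ M : Op G → Op G, IsHeatMap σ d t M → M x₀ ∈ CFS σ) ∧
      ∃ y ∈ CFS σ, ∀ g, coef y g = (Real.exp (-(t * d g)) : ℂ) * coef x₀ g := by
  classical
  unfold PropertyT at hG
  push Not at hG
  obtain ⟨d, hd, hu⟩ := hG
  have hu' : ¬ ∃ C : ℝ, ∀ g, d g ≤ C := by
    rintro ⟨C, hC⟩
    obtain ⟨g, hg⟩ := hu C
    exact absurd (hC g) (not_le.mpr hg)
  obtain ⟨T, T', w, hT'T, hdis, hb, hbig, hexp⟩ := blocks σ hd hu'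
  -- the two elements
  set x₀ : L2 G →L[ℂ] L2 G := ∑' j, ((1 / 2 : ℂ) ^ j) • opS σ (T j) (w j) with hx₀
  set v : ℕ → G → ℂ := fun k g => (Real.exp (- d g) : ℂ) * w k g with hv
  have hbv : ∀ k, ‖opS σ (T k) (v k)‖ ≤ 1 := by
    intro k
    refine (norm_opS_le σ _ _).trans (le_trans (le_of_eq ?_) (hexp k))
    refine Finset.sum_congr rfl (fun g _ => ?_)
    rw [hv]
    beta_reduce
    rw [norm_mul, Complex.norm_real, Real.norm_of_nonneg (Real.exp_pos _).le]
  set y : L2 G →L[ℂ] L2 G := ∑' j, ((1 / 2 : ℂ) ^ j) • opS σ (T j) (v j) with hy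
  have hxC : x₀ ∈ CrStar σ := geo_mem_CrStar σ T w hb
  have hyC : y ∈ CrStar σ := geo_mem_CrStar σ T v hbv
  obtain ⟨hfx1, hfx2⟩ := fc_geo σ T hdis w hb
  obtain ⟨hfy1, hfy2⟩ := fc_geo σ T hdis v hbv
  have hfc : ∀ g, fc y g = (Real.exp (- d g) : ℂ) * fc x₀ g := by
    intro g
    by_cases hg : ∃ k, g ∈ T k
    · obtain ⟨k, hk⟩ := hg
      rw [hfy1 k g hk, hfx1 k g hk, hv]
      ring
    · push Not at hg
      rw [hfy2 g hg, hfx2 g hg, mul_zero]
  have hyCF : y ∈ CF σ := by
    refine ⟨hyC, ?_⟩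
    have h1 : Summable (fun g => ‖fc y g‖) := by
      refine summable_coef T hdis _ (fun g => norm_nonneg _) (fun g hg => ?_) (fun k => ?_)
      · rw [hfy2 g hg, norm_zero]
      · have h2 : ∑ g ∈ T k, ‖fc y g‖ = (1 / 2) ^ k * ∑ g ∈ T k, Real.exp (- d g) * ‖w k g‖ := by
          rw [Finset.mul_sum]
          refine Finset.sum_congr rfl (fun g hg => ?_)
          rw [hfy1 k g hg, hv]
          beta_reduce
          rw [norm_mul, norm_mul, Complex.norm_real, Real.norm_of_nonneg (Real.exp_pos _).le,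
            norm_pow]
          norm_num
        rw [h2]
        have h3 : (0 : ℝ) ≤ (1 / 2) ^ k := by positivity
        have h4 := hexp k
        nlinarith
    refine Summable.of_norm_bounded h1 (fun g => ?_)
    rw [norm_smul]
    have := norm_Lam_le σ g
    have h2 := norm_nonneg (fc y g)
    nlinarith
  have hxCF : x₀ ∉ CF σ := by
    rintro ⟨-, hsum⟩
    rw [summable_iff_vanishing_norm] at hsum
    obtain ⟨s, hs⟩ := hsum 1 one_pos
    obtain ⟨k, hk⟩ : ∃ k, Disjoint (T k) s := by
      by_contra hcon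
      push Not at hcon
      have h1 : ∀ k, ∃ g, g ∈ T k ∧ g ∈ s := by
        intro k
        have := hcon k
        rw [Finset.not_disjoint_iff] at this
        exact this
      choose f hf1 hf2 using h1
      have hinj : Function.Injective f := by
        intro j k hjk
        by_contra hne
        have h3 := hf1 k
        rw [← hjk] at h3
        exact Finset.disjoint_left.mp (hdis j k hne) (hf1 j) h3
      exact Set.infinite_of_injective_forall_mem hinj (fun k => hf2 k) s.finite_toSet
    have h2 := hs (T' k) (hk.mono_left (hT'T k))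
    have h3 : ∑ g ∈ T' k, fc x₀ g • Lam σ g = ((1 / 2 : ℂ) ^ k) • opS σ (T' k) (w k) := by
      unfold opS
      rw [Finset.smul_sum]
      refine Finset.sum_congr rfl (fun g hg => ?_)
      rw [hfx1 k g (hT'T k hg), smul_smul]
    rw [h3, norm_smul, norm_pow] at h2
    have h4 : ‖(1 / 2 : ℂ)‖ = 1 / 2 := by norm_num
    rw [h4] at h2
    have h5 := hbig k
    have h6 : (1 : ℝ) ≤ (1 / 2) ^ k * ‖opS σ (T' k) (w k)‖ := by
      have h7 : (0 : ℝ) < (1 / 2) ^ k := by positivity
      have h8 : (1 : ℝ) ≤ (1 / 2) ^ k * 4 ^ k := by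
        rw [← mul_pow]; norm_num
        exact one_le_pow₀ (by norm_num)
      nlinarith
    linarith
  have hxC' : (x₀ : Op G) ∈ CrS σ := by rw [CrS_eq]; exact hxC
  have hxCF' : (x₀ : Op G) ∉ CFS σ := by rw [CFS_eq]; exact hxCF
  have hyCF' : (y : Op G) ∈ CFS σ := by rw [CFS_eq]; exact hyCF
  refine ⟨d, hd, x₀, 1, one_pos, hxC', CrS_sub σ hxC', hxCF', ?_, y, hyCF', ?_⟩
  · intro M hM
    obtain ⟨C, hC⟩ := hM.bound
    have hsx := (summable_geo (fun k => opS σ (T k) (w k)) hb).hasSum
    have hsy : HasSum (fun k => ((1 / 2 : ℂ) ^ k) • opS σ (T k) (v k)) y :=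
      (summable_geo (fun k => opS σ (T k) (v k)) hbv).hasSum
    have h8 : (fun k => ((1 / 2 : ℂ) ^ k) • opS σ (T k) (v k)) = (fun k => ((1 / 2 : ℂ) ^ k) •
        opS σ (T k) (fun g => (Real.exp (-(1 * d g)) : ℂ) * w k g)) := by
      funext k
      rw [hv]
      simp only [one_mul]
    have h9 : HasSum (fun k => ((1 / 2 : ℂ) ^ k) • opS σ (T k)
        (fun g => (Real.exp (-(1 * d g)) : ℂ) * w k g)) y := by
      rw [← h8]; exact hsy
    have h7 : M x₀ = y :=
      heat_limit (G := G) (E := Op G) (vNA σ) M (Submodule.span ℂ (Set.range (lam σ)))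
        (CrS_sub σ) (lam σ) (fun g => Submodule.subset_span ⟨g, rfl⟩) hM.map_add hM.map_smul C hC
        (fun g => (Real.exp (-(1 * d g)) : ℂ)) hM.map_lam T w (fun k => (1 / 2 : ℂ) ^ k) x₀ y
        (hasSum_op σ T _ w _ hsx) (hasSum_op σ T _ _ _ h9)
    rw [h7]
    exact hyCF'
  · intro g
    rw [one_mul]
    exact hfc g

end Pool.Agent.Results.MP_6efe58_an.WeakHeat
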